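import Pool.Agent.H66.XP.TH

/-!
# Row PFX of the board `xpm_modules`: a pair of protocols does not see a block

The model is `Pool/Agent/H20/AVH/PF2.lean`.
-/

set_option autoImplicit false

namespace Pool.Agent.H4.XP

open Finset Pool.Agent.H6.NB Pool.Agent.H70.OQ Pool.Agent.H70.EH Pool.Agent.H70.EI
open Pool.Agent.H78.XQ Pool.Agent.H66.IQ Pool.Agent.H66.AV Pool.Agent.H66.XP
open Pool.Agent.H66.IP (Local ins sp dm scl IsZ)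

private theorem Cl_succ {V : Type} {S : ℕ} (hS : 1 ≤ S) {d : ℕ} {f : (V → Bool) → Bool}
    (h : Cl V S d f) : Cl V S (d + 1) f :=
  ⟨1, fun _ => f, fun _ => true, hS, fun _ => h, fun y =>
    ⟨fun hy => ⟨0, hy⟩, fun ⟨_, hy⟩ => hy⟩⟩

private theorem Cl_mono {V : Type} {S : ℕ} (hS : 1 ≤ S) {d d' : ℕ} (hd : d ≤ d')
    {f : (V → Bool) → Bool} (h : Cl V S d f) : Cl V S d' f := by
  induction hd with
  | refl => exact h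
  | step _ ih => exact Cl_succ hS ih

private theorem Cb_mono {V : Type} {S : ℕ} (hS : 1 ≤ S) {d d' : ℕ} (hd : d ≤ d') {t : Tr V}
    (h : t.Cb S d) : t.Cb S d' := by
  induction t with
  | lf a => exact Cl_mono hS hd h
  | av l r hl hr => exact ⟨hl h.1, hr h.2⟩
  | ch l r hl hr => exact ⟨hl h.1, hr h.2⟩

theorem pf_PFX (hBFC : Pool.Agent.H66.XP.T_BFC) (hPTR : Pool.Agent.H66.IQ.T_PTR)
    (hTPR : Pool.Agent.H66.AV.T_TPR) (hIZU : Pool.Agent.H66.IP.T_IZU)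
    (hSPF : Pool.Agent.H66.IP.T_SPF) : T_PFX := by
  intro V k
  refine ⟨3 * k + 100, fun n hn G₁ G₂ hG₁ hG₂ => ?_⟩
  intro E O hO P g₁ g₂ p h b K B hsc hK
  obtain ⟨-, -, hSz, -, -, -⟩ := hSPF (lo V)
  obtain ⟨hI, -⟩ := hIZU (dm (lo V)) E O hO
  obtain ⟨-, hI2, hI3⟩ := hI P g₁ p h
  obtain ⟨-, hJ2, hJ3⟩ := hI P g₂ p h
  set r := scl (lo V) p with hr
  have hpos : 1 ≤ 2 ^ r := Nat.one_le_two_pow
  have hnr : 2 ^ (n / 4 + 1) ≤ 2 ^ r := Nat.pow_le_pow_right (by norm_num) (by omega)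
  have h1n : 1 ≤ 2 ^ (n / 4) := Nat.one_le_two_pow
  have hm1 : 2 ^ (n / 4) + 1 ≤ 2 ^ r := by
    rw [pow_succ] at hnr
    omega
  have hm2 : 2 ^ (n / 4) + 2 ^ (n / 4) ≤ 2 ^ r := by
    rw [pow_succ] at hnr
    omega
  have hS2 : 2 ≤ 2 ^ 2 ^ r := by
    calc 2 = 2 ^ 1 := (pow_one 2).symm
      _ ≤ 2 ^ 2 ^ r := Nat.pow_le_pow_right (by norm_num) hpos
  have hSm : 2 ^ (2 ^ (n / 4) + 1) ≤ 2 ^ 2 ^ r := Nat.pow_le_pow_right (by norm_num) hm1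
  have hkr : k + 5 + 2 ≤ r := by omega
  refine hBFC r _ _ _ _ (hSz p) b K B
    (fun c => G₁.val (O (Function.update P ⟨p, h⟩ c) g₁) *
      G₂.val (O (Function.update P ⟨p, h⟩ c) g₂)) hK.1 hK.2 ?_ ?_
  · intro P' u h'
    obtain ⟨t₁, h1, h2, h3⟩ := hPTR _ k (2 ^ (n / 4)) (2 ^ 2 ^ r) G₁ _ hS2 hSm
      (hI2 (P', h') u) hG₁
    obtain ⟨t₂, j1, j2, j3⟩ := hPTR _ k (2 ^ (n / 4)) (2 ^ 2 ^ r) G₂ _ hS2 hSm
      (hJ2 (P', h') u) hG₂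
    obtain ⟨t, l1, l2, l3⟩ := hTPR _ t₁ t₂
    refine ⟨t, l1.trans ((Nat.add_le_add h1 j1).trans hm2),
      Cb_mono (le_trans (by norm_num) hS2) hkr (l2 _ _ hS2 h2 j2), fun y => ?_⟩
    rw [l3 y, h3 y, j3 y]
  · intro P'
    obtain ⟨t₁, h1, h2, h3⟩ := hPTR _ k (2 ^ (n / 4)) (2 ^ 2 ^ r) G₁ _ hS2 hSm
      (hI3 (P', fun _ => false)) hG₁
    obtain ⟨t₂, j1, j2, j3⟩ := hPTR _ k (2 ^ (n / 4)) (2 ^ 2 ^ r) G₂ _ hS2 hSm
      (hJ3 (P', fun _ => false)) hG₂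
    obtain ⟨t, l1, l2, l3⟩ := hTPR _ t₁ t₂
    refine ⟨t, l1.trans ((Nat.add_le_add h1 j1).trans hm2),
      Cb_mono (le_trans (by norm_num) hS2) hkr (l2 _ _ hS2 h2 j2), fun y => ?_⟩
    rw [l3 y, h3 y, j3 y]

end Pool.Agent.H4.XP
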